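import Mathlib
import Pool.Agent.H68R2.BP.Props2

open scoped ComplexOrder InnerProductSpace ComplexConjugate Topology
open Finset Filter
noncomputable section
namespace H68R2.BP
open H759R2.Kad H744R2.KZ

namespace SrcAux

variable {H : Type} [NormedAddCommGroup H] [InnerProductSpace ℂ H] [CompleteSpace H]
  {L : Type} [NormedAddCommGroup L] [InnerProductSpace ℂ L] [CompleteSpace L]

lemma mem_mul {M : VonNeumannAlgebra H} {p a b : H →L[ℂ] H} (ha : a ∈ Cnr M p)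
    (hb : b ∈ Cnr M p) : a * b ∈ Cnr M p := by
  refine ⟨mul_mem ha.1 hb.1, ?_, ?_⟩
  · rw [← mul_assoc, ha.2.1]
  · rw [mul_assoc, hb.2.2]

lemma mem_star {M : VonNeumannAlgebra H} {p a : H →L[ℂ] H} (hp : star p = p)
    (ha : a ∈ Cnr M p) : star a ∈ Cnr M p := by
  refine ⟨star_mem ha.1, ?_, ?_⟩
  · have := congrArg star ha.2.2
    rwa [star_mul, hp] at this
  · have := congrArg star ha.2.1
    rwa [star_mul, hp] at this

/-- product family -/
def pr {I J : Type} (x : I → (H →L[ℂ] H)) (y : J → (H →L[ℂ] H)) : I × J → (H →L[ℂ] H) :=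
  fun q => x q.1 * y q.2

lemma TT_pr {A : Set (H →L[ℂ] H)} {l r : (H →L[ℂ] H) → (L →L[ℂ] L)} (h : BiRep A l r)
    {I J : Type} [Fintype I] [Fintype J] (x : I → (H →L[ℂ] H)) (y : J → (H →L[ℂ] H))
    (hx : ∀ i, x i ∈ A) (hy : ∀ j, y j ∈ A) :
    TT l r (pr x y) = TT l r x * TT l r y := by
  unfold TT pr
  rw [Fintype.sum_prod_type, Finset.sum_mul_sum]
  refine Finset.sum_congr rfl fun i _ => Finset.sum_congr rfl fun j _ => ?_
  rw [h.l_mul _ (hx i) _ (hy j), h.r_mul _ (hx i) _ (hy j)]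
  have := h.comm _ (hy j) _ (hx i)
  calc l (x i) * l (y j) * (r (x i) * r (y j)) = l (x i) * (l (y j) * r (x i)) * r (y j) := by
        simp only [mul_assoc]
    _ = l (x i) * (r (x i) * l (y j)) * r (y j) := by rw [this]
    _ = _ := by simp only [mul_assoc]

lemma TT_star {A : Set (H →L[ℂ] H)} {l r : (H →L[ℂ] H) → (L →L[ℂ] L)} (h : BiRep A l r)
    {I : Type} [Fintype I] (x : I → (H →L[ℂ] H)) (hx : ∀ i, x i ∈ A) :
    TT l r (fun i => star (x i)) = star (TT l r x) := by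
  unfold TT
  rw [star_sum]
  refine Finset.sum_congr rfl fun i _ => ?_
  rw [h.l_star _ (hx i), h.r_star _ (hx i), star_mul, ← star_mul, ← star_mul,
    h.comm _ (hx i) _ (hx i)]

lemma colN_pr {I J : Type} [Fintype I] [Fintype J] (x : I → (H →L[ℂ] H))
    (y : J → (H →L[ℂ] H)) : colN (pr x y) ≤ colN x * colN y := by
  unfold colN pr
  set C := ∑ i, star (x i) * x i with hC
  have hC0 : 0 ≤ C := Finset.sum_nonneg fun i _ => star_mul_self_nonneg _
  have hCs : IsSelfAdjoint C := IsSelfAdjoint.of_nonneg hC0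
  have h1 : ∑ q : I × J, star (x q.1 * y q.2) * (x q.1 * y q.2) =
      ∑ j, star (y j) * C * y j := by
    rw [Fintype.sum_prod_type, Finset.sum_comm]
    refine Finset.sum_congr rfl fun j _ => ?_
    rw [hC, Finset.mul_sum, Finset.sum_mul]
    refine Finset.sum_congr rfl fun i _ => ?_
    simp only [star_mul, mul_assoc]
  rw [h1]
  have h2 : ∑ j, star (y j) * C * y j ≤ ‖C‖ • ∑ j, star (y j) * y j := by
    rw [Finset.smul_sum]
    exact Finset.sum_le_sum fun j _ => CStarAlgebra.star_left_conjugate_le_norm_smul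
  have h3 : 0 ≤ ∑ j, star (y j) * C * y j :=
    Finset.sum_nonneg fun j _ => star_left_conjugate_nonneg hC0 _
  refine (CStarAlgebra.norm_le_norm_of_nonneg_of_le h3 h2).trans ?_
  rw [norm_smul, norm_norm]

lemma rowN_pr {I J : Type} [Fintype I] [Fintype J] (x : I → (H →L[ℂ] H))
    (y : J → (H →L[ℂ] H)) : rowN (pr x y) ≤ rowN x * rowN y := by
  unfold rowN pr
  set C := ∑ j, y j * star (y j) with hC
  have hC0 : 0 ≤ C := Finset.sum_nonneg fun i _ => mul_star_self_nonneg _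
  have hCs : IsSelfAdjoint C := IsSelfAdjoint.of_nonneg hC0
  have h1 : ∑ q : I × J, (x q.1 * y q.2) * star (x q.1 * y q.2) =
      ∑ i, x i * C * star (x i) := by
    rw [Fintype.sum_prod_type]
    refine Finset.sum_congr rfl fun i _ => ?_
    rw [hC, Finset.mul_sum, Finset.sum_mul]
    refine Finset.sum_congr rfl fun j _ => ?_
    simp only [star_mul, mul_assoc]
  rw [h1]
  have h2 : ∑ i, x i * C * star (x i) ≤ ‖C‖ • ∑ i, x i * star (x i) := by
    rw [Finset.smul_sum]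
    exact Finset.sum_le_sum fun j _ => CStarAlgebra.star_right_conjugate_le_norm_smul
  have h3 : 0 ≤ ∑ i, x i * C * star (x i) :=
    Finset.sum_nonneg fun j _ => star_right_conjugate_nonneg hC0 _
  refine (CStarAlgebra.norm_le_norm_of_nonneg_of_le h3 h2).trans ?_
  rw [norm_smul, norm_norm, mul_comm]

lemma bi_of_min {S κ : Type} [NormedAddCommGroup S] [InnerProductSpace ℂ S] [CompleteSpace S]
    {b : HilbertBasis κ ℂ H} {l r : (H →L[ℂ] H) → (S →L[ℂ] S)} {th : κ → κ → S}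
    (h : MinRep b l r th) (A : Set (H →L[ℂ] H)) : BiRep A l r :=
  { l_add := h.l_add, l_smul := h.l_smul, l_mul := fun x _ y _ => h.l_mul x y
    l_star := fun x _ => h.l_star x, l_norm := fun x _ => h.l_norm x
    r_add := h.r_add, r_smul := h.r_smul, r_mul := fun x _ y _ => h.r_mul x y
    r_star := fun x _ => h.r_star x, r_norm := fun x _ => h.r_norm x
    comm := fun x _ y _ => h.comm x y }

lemma norm_TT_pow (T : L →L[ℂ] L) (m : ℕ) : ‖(star T * T) ^ (2 ^ m)‖ = ‖T‖ ^ (2 ^ (m + 1)) := by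
  have hs : IsSelfAdjoint (star T * T) := IsSelfAdjoint.star_mul_self T
  have h1 : ‖(star T * T) ^ (2 ^ m)‖ = ‖star T * T‖ ^ (2 ^ m) := by
    rw [← coe_nnnorm, hs.nnnorm_pow_two_pow m, NNReal.coe_pow, coe_nnnorm]
  rw [h1, CStarRing.norm_star_mul_self, ← pow_two, ← pow_mul, pow_succ, mul_comm 2]

lemma growth {r c : ℝ} {W₀ : ℕ} (hc : 0 ≤ c)
    (h : ∀ m : ℕ, r ^ (2 ^ (m + 1)) ≤ c * (((2 ^ m * W₀ : ℕ) : ℝ) + 1)) : r ≤ 1 := by
  by_contra hr
  push Not at hr
  set δ := r - 1 with hδ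
  have hδ0 : 0 < δ := by linarith
  obtain ⟨m, hm⟩ := pow_unbounded_of_one_lt (c * ((W₀ : ℝ) + 1) / δ ^ 2) (by norm_num : (1:ℝ) < 2)
  have h1 := h m
  set k : ℝ := (2 : ℝ) ^ m with hk
  have hk1 : 1 ≤ k := one_le_pow₀ (by norm_num)
  have h2 : 1 + k * δ ≤ r ^ (2 ^ m) := by
    have := one_add_mul_le_pow (by linarith : (-2 : ℝ) ≤ δ) (2 ^ m)
    have e : (1 : ℝ) + δ = r := by rw [hδ]; ring
    rw [e] at this
    push_cast at this
    exact this
  have h3 : (k * δ) ^ 2 ≤ r ^ (2 ^ (m + 1)) := by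
    have e : r ^ (2 ^ (m + 1)) = (r ^ (2 ^ m)) ^ 2 := by rw [← pow_mul, pow_succ]
    rw [e]
    have : 0 ≤ k * δ := by positivity
    apply pow_le_pow_left₀ this
    linarith
  have h4 : (k * δ) ^ 2 ≤ c * (k * ((W₀ : ℝ) + 1)) := by
    refine (h3.trans h1).trans ?_
    apply mul_le_mul_of_nonneg_left _ hc
    push_cast
    rw [← hk]
    nlinarith
  have h5 : k * δ ^ 2 ≤ c * ((W₀ : ℝ) + 1) := by
    have hkp : 0 < k := by linarith
    have : k * (k * δ ^ 2) ≤ k * (c * ((W₀ : ℝ) + 1)) := by nlinarith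
    exact le_of_mul_le_mul_left this hkp
  have h6 : c * ((W₀ : ℝ) + 1) / δ ^ 2 < k := hm
  rw [div_lt_iff₀ (by positivity)] at h6
  linarith

end SrcAux

open SrcAux

theorem prove_S_rc (h1 : S_one) : S_rc := by
  intro H _ _ _ S κ _ _ _ b l₀ r₀ th hmin M z p hz hrc hpM hp hzp L _ _ _ l r hbi ι _ x hx
  obtain ⟨c, hc0, hc⟩ := h1 H S κ b l₀ r₀ th hmin M z p hz hrc hpM hp hzp
  have hbi0 : BiRep (Cnr M p) l₀ r₀ := bi_of_min hmin _
  have hps : star p = p := by
    obtain ⟨ha, hb⟩ := hp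
    exact ha
  set T := TT l r x with hT
  set T₀ := TT l₀ r₀ x with hT₀
  apply le_of_forall_gt_imp_ge_of_dense
  intro μ hμ
  have hμ0 : 0 < μ := (norm_nonneg _).trans_lt hμ
  -- the words
  set z₀ := pr (fun i => star (x i)) x with hz₀
  set K := max (max (colN z₀) (rowN z₀)) (μ ^ 2) with hK
  have hK1 : colN z₀ ≤ K := (le_max_left _ _).trans (le_max_left _ _)
  have hK2 : rowN z₀ ≤ K := (le_max_right _ _).trans (le_max_left _ _)
  have hK3 : μ ^ 2 ≤ K := le_max_right _ _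
  have hK0 : 0 < K := lt_of_lt_of_le (by positivity) hK3
  have hsx : ∀ i, star (x i) ∈ Cnr M p := fun i => mem_star hps (hx i)
  have words : ∀ m : ℕ, ∃ (I : Type) (_ : Fintype I) (y : I → (H →L[ℂ] H)),
      (∀ i, y i ∈ Cnr M p) ∧ TT l r y = (star T * T) ^ (2 ^ m) ∧
      TT l₀ r₀ y = (star T₀ * T₀) ^ (2 ^ m) ∧ colN y ≤ K ^ (2 ^ m) ∧ rowN y ≤ K ^ (2 ^ m) := by
    intro m
    induction m with
    | zero =>
      refine ⟨ι × ι, inferInstance, z₀, fun q => mem_mul (hsx _) (hx _), ?_, ?_, ?_, ?_⟩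
      · rw [hz₀, TT_pr hbi _ _ hsx hx, TT_star hbi x hx]; simp [hT]
      · rw [hz₀, TT_pr hbi0 _ _ hsx hx, TT_star hbi0 x hx]; simp [hT₀]
      · simpa using hK1
      · simpa using hK2
    | succ m ih =>
      obtain ⟨I, fI, y, hy, e1, e2, e3, e4⟩ := ih
      refine ⟨I × I, inferInstance, pr y y, fun q => mem_mul (hy _) (hy _), ?_, ?_, ?_, ?_⟩
      · rw [TT_pr hbi _ _ hy hy, e1, ← pow_add]; congr 1; ring
      · rw [TT_pr hbi0 _ _ hy hy, e2, ← pow_add]; congr 1; ring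
      · refine (colN_pr y y).trans ?_
        have : K ^ (2 ^ (m + 1)) = K ^ (2 ^ m) * K ^ (2 ^ m) := by
          rw [← pow_add]; congr 1; ring
        rw [this]
        exact mul_le_mul e3 e3 (norm_nonneg _) (by positivity)
      · refine (rowN_pr y y).trans ?_
        have : K ^ (2 ^ (m + 1)) = K ^ (2 ^ m) * K ^ (2 ^ m) := by
          rw [← pow_add]; congr 1; ring
        rw [this]
        exact mul_le_mul e4 e4 (norm_nonneg _) (by positivity)
  obtain ⟨W₀, hW₀⟩ := pow_unbounded_of_one_lt (K / μ ^ 2) (by norm_num : (1:ℝ) < 4)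
  have hW : K ≤ 4 ^ W₀ * μ ^ 2 := by
    rw [div_lt_iff₀ (by positivity)] at hW₀
    exact hW₀.le
  have main : ∀ m : ℕ, (‖T‖ / μ) ^ (2 ^ (m + 1)) ≤ c * (((2 ^ m * W₀ : ℕ) : ℝ) + 1) := by
    intro m
    obtain ⟨I, fI, y, hy, e1, e2, e3, e4⟩ := words m
    have hKm : K ^ (2 ^ m) ≤ 4 ^ (2 ^ m * W₀) * μ ^ (2 ^ (m + 1)) := by
      have : (4 : ℝ) ^ (2 ^ m * W₀) * μ ^ (2 ^ (m + 1)) = (4 ^ W₀ * μ ^ 2) ^ (2 ^ m) := by
        rw [mul_pow, ← pow_mul, ← pow_mul]
        congr 1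
        · congr 1; ring
        · congr 1; ring
      rw [this]
      exact pow_le_pow_left₀ hK0.le hW _
    have h0 : ‖TT l₀ r₀ y‖ ≤ μ ^ (2 ^ (m + 1)) := by
      rw [e2, norm_TT_pow]
      exact pow_le_pow_left₀ (norm_nonneg _) hμ.le _
    have h2 := hc L l r hbi I y hy (μ ^ (2 ^ (m + 1))) (2 ^ m * W₀) h0 (by positivity)
      (e3.trans hKm) (e4.trans hKm)
    rw [e1, norm_TT_pow] at h2
    rw [div_pow, div_le_iff₀ (by positivity)]
    exact h2
  have := growth hc0 main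
  rw [div_le_one hμ0] at this
  exact this

end H68R2.BP
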